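import Pool.Agent.U467.CN.Fin

/-!
# A coanalytic null-finite set without Borel null-finite hull (MP_ceb5ee_gt, Q2)

The group is `G = ℤ^ℕ × ℤ^ℕ`.  The signs of the coordinates of `z ∈ ℤ^ℕ` code two trees for every
`i = (m, v) ∈ ℕ × ℤ`.  `A` is the set of the `(z, k)` such that for all `(m, v)` the first tree is
well-founded of rank at most the rank of the second one if `k m = v`, and the second tree is
well-founded of rank smaller than the rank of the first one if `k m ≠ v`.  It is coanalytic and
there is at most one `k` for every `z`, so a null-sequence in the second factor meets every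
translate of `A` at most once.  The complement of a Borel null-finite set has a Borel uniformizing
function, defined where the sections are not meager; it is coded by the signs of some `z` whose
section is not meager, so `A` meets the complement.
-/

set_option autoImplicit false

namespace Pool.Agent.Results.MP_ceb5ee_gt.CoanalyticNoHull

open Set Topology Filter MeasureTheory

/-- A set is null-finite if there is a sequence `s n → 0` such that for each `x` only finitely many
`n` satisfy `x + s n ∈ A`. -/
def NullFinite {X : Type*} [AddCommGroup X] [TopologicalSpace X] (A : Set X) : Prop :=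
  ∃ s : ℕ → X, Tendsto s atTop (𝓝 0) ∧ ∀ x : X, {n | x + s n ∈ A}.Finite

/-- A set is null-one if there is a sequence `s n → 0` such that for each `x` at most one `n`
satisfies `x + s n ∈ A`. -/
def NullOne {X : Type*} [AddCommGroup X] [TopologicalSpace X] (A : Set X) : Prop :=
  ∃ s : ℕ → X, Tendsto s atTop (𝓝 0) ∧ ∀ x : X, {n | x + s n ∈ A}.Subsingleton

/-- The group `ℤ^ℕ × ℤ^ℕ` with the product topology. -/
abbrev G : Type := (ℕ → ℤ) × (ℕ → ℤ)

/-- **Negative answer to Q2.** `G = ℤ^ℕ × ℤ^ℕ` is a Polish group with a coanalytic set `A` which is
null-finite (even null-one) and is contained in no Borel null-finite set and in no analytic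
null-finite set. -/
theorem result : PolishSpace G ∧ IsTopologicalAddGroup G ∧ ∃ A : Set G,
    AnalyticSet Aᶜ ∧ NullFinite A ∧ NullOne A ∧
    (∀ B : Set G, @MeasurableSet G (borel G) B → A ⊆ B → ¬ NullFinite B) ∧
    (∀ B : Set G, AnalyticSet B → A ⊆ B → ¬ NullFinite B) :=
  ⟨inferInstance, inferInstance, Pool.Agent.U467.CN.fin⟩

end Pool.Agent.Results.MP_ceb5ee_gt.CoanalyticNoHull
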